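import Pool.Agent.Q95.DC.MmzB

/-!
Project DC (helper17), job MMZ.
-/

set_option autoImplicit false
set_option linter.unusedSectionVars false

open scoped BigOperators Classical Pointwise
open Pool.Agent.H254R3.IN Pool.Agent.Q17.TC Pool.Agent.Q17.DC

noncomputable section

namespace Pool.Agent.Q95.DC

/-- a central `p`-element acts by a scalar congruent to `1` -/
lemma nu_exists {p : ℕ} [hp : Fact p.Prime] {O : ValuationSubring ℂ} (hpO : (p : ℂ) ∈ O.nonunits)
    {A : Type} [Group A] [Fintype A] {φ : A → ℂ} (hφ : IsIrr φ) (w : A)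
    (hw : ∀ a, Commute w a) {k : ℕ} (hk : orderOf w = p ^ k) :
    ∃ c ∈ O, red O c = 1 ∧ ∀ u, φ (w * u) = c * φ u := by
  obtain ⟨V, _, _, _, ρ, hr, rfl⟩ := hφ
  have := irr_nontrivial ρ hr
  obtain ⟨c, hc⟩ := schur ρ hr (ρ w) (fun h v => by
    rw [← Module.End.mul_apply, ← Module.End.mul_apply, ← map_mul, ← map_mul, (hw h).eq])
  have h1 : c ^ (p ^ k) = 1 := by
    apply scalar_inj (V := V)
    have h2 : ρ w ^ (p ^ k) = 1 := by
      rw [← map_pow, ← hk, pow_orderOf_eq_one, map_one]
    rw [hc] at h2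
    have h3 : (c • (LinearMap.id : V →ₗ[ℂ] V)) ^ (p ^ k) = c ^ (p ^ k) • LinearMap.id := by
      have : (LinearMap.id : V →ₗ[ℂ] V) = 1 := rfl
      rw [this, smul_pow, one_pow]
    rw [h3] at h2
    rw [h2, one_smul]
    rfl
  have hint : IsIntegral ℤ c := by
    refine ⟨Polynomial.X ^ (p ^ k) - 1,
      Polynomial.monic_X_pow_sub_C 1 (pow_pos hp.out.pos k).ne', ?_⟩
    simp [h1]
  have hcO : c ∈ O := mem_of_isIntegral hint
  refine ⟨c, hcO, ?_, ?_⟩
  · have := charP_RF hpO
    have h4 : red O c ^ (p ^ k) = 1 := by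
      have h5 : ∀ n : ℕ, red O (c ^ n) = red O c ^ n := by
        intro n
        induction n with
        | zero => rw [pow_zero, pow_zero, red_one]
        | succ n ih => rw [pow_succ, pow_succ, red_mul (O.toSubring.pow_mem hcO n) hcO, ih]
      rw [← h5, h1, red_one]
    have h6 := sub_pow_char_pow (red O c) 1 k (p := p)
    rw [h4, one_pow, sub_self] at h6
    exact sub_eq_zero.mp (pow_eq_zero_iff (pow_pos hp.out.pos k).ne' |>.mp h6)
  · intro u
    unfold Representation.character
    rw [map_mul, hc]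
    have h7 : (c • (LinearMap.id : V →ₗ[ℂ] V)) * ρ u = c • ρ u := by
      ext v
      simp
    rw [h7, map_smul, smul_eq_mul]

lemma F_eq {G : Type} [Group G] [Fintype G] {O : ValuationSubring ℂ} {C : Subgroup G}
    {χ : G → ℂ} {φ : C → ℂ} (hχ : IsIrr χ) {w : G}
    (h : omega χ w - ∑ᶠ y : {y : C // IsConj w (y : G)}, φ y / φ 1 ∈ O.nonunits) :
    red O (omega χ w) =
      red O (∑ y ∈ Finset.univ.filter (fun y : C => IsConj w (y : G)), φ y / φ 1) := by
  obtain ⟨h1, h2⟩ := red_congr (hχ.omega_mem O w) h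
  rw [h2]
  congr 1
  rw [finsum_eq_sum_of_fintype]
  rw [← Finset.sum_subtype (p := fun y : C => IsConj w (y : G))
      (Finset.univ.filter (fun y : C => IsConj w (y : G))) (by simp) (fun y => φ y / φ 1)]

/-- the main congruence -/
lemma main_cong {G : Type} [Group G] [Fintype G] {p : ℕ} [hp : Fact p.Prime]
    {O : ValuationSubring ℂ} (hpO : (p : ℂ) ∈ O.nonunits) {D : Subgroup G} {x z : G}
    (hDX : ∀ d ∈ D, Commute d x) (hDp : IsPGroup p D)
    (hDi : ¬ p ∣ D.relIndex (Subgroup.centralizer ({x} : Set G))) (hx : ¬ p ∣ orderOf x)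
    (hz : z ∈ D) (hzD : ∀ d ∈ D, Commute z d)
    {φ : Subgroup.centralizer (D : Set G) → ℂ} (hφ : IsIrr φ) :
    red O (∑ y ∈ Finset.univ.filter
        (fun y : Subgroup.centralizer (D : Set G) => IsConj (z * x) (y : G)), φ y / φ 1)
      = (Nat.card (Fib D z x x) : RF O) *
        red O (∑ y ∈ Finset.univ.filter
          (fun y : Subgroup.centralizer (D : Set G) => IsConj x (y : G)), φ y / φ 1) := by
  obtain ⟨N, hN1, hN2⟩ := exists_exp G p
  have hC : ∀ y : Subgroup.centralizer (D : Set G), ∀ d ∈ D, Commute d (y : G) := fun y d hd =>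
    (Subgroup.mem_centralizer_iff.mp y.2) d hd
  have hpow : ∀ w ∈ D, ∃ k, orderOf w = p ^ k := by
    intro w hw
    obtain ⟨k, hk⟩ := (IsPGroup.iff_orderOf.mp hDp) ⟨w, hw⟩
    exact ⟨k, by rw [← hk]; exact (Subgroup.orderOf_mk w hw).symm⟩
  have hreg : ∀ u : G, IsConj x u → ¬ p ∣ orderOf u := by
    intro u hu
    obtain ⟨g, rfl⟩ := isConj_iff.mp hu
    rwa [orderOf_conj']
  -- the pairs
  let Q : Subgroup.centralizer (D : Set G) → Subgroup.centralizer (D : Set G) → Prop :=
    fun w u => (w : G) ∈ D ∧ IsConj x (u : G) ∧ IsConj (z * x) ((w : G) * u)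
  have e1 : ∑ y ∈ Finset.univ.filter
        (fun y : Subgroup.centralizer (D : Set G) => IsConj (z * x) (y : G)), φ y / φ 1
      = ∑ q ∈ Finset.univ.filter (fun q : Subgroup.centralizer (D : Set G) ×
          Subgroup.centralizer (D : Set G) => Q q.1 q.2), φ (q.1 * q.2) / φ 1 := by
    refine Finset.sum_bij' (fun y _ => (y * (y ^ N)⁻¹, y ^ N)) (fun q _ => q.1 * q.2)
      ?_ ?_ ?_ ?_ ?_
    · intro y hy
      have h1 := (Finset.mem_filter.mp hy).2
      obtain ⟨h2, h3⟩ := split hDX hDp hDi hx hz hN1 hN2 (hC y) h1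
      rw [Finset.mem_filter]
      refine ⟨Finset.mem_univ _, ?_, ?_, ?_⟩
      · exact h3
      · exact h2
      · show IsConj (z * x) ((y : G) * ((y : G) ^ N)⁻¹ * (y : G) ^ N)
        rw [inv_mul_cancel_right]
        exact h1
    · intro q hq
      exact Finset.mem_filter.mpr ⟨Finset.mem_univ _, (Finset.mem_filter.mp hq).2.2.2⟩
    · intro y hy
      show y * (y ^ N)⁻¹ * y ^ N = y
      rw [inv_mul_cancel_right]
    · intro q hq
      obtain ⟨h1, h2, h3⟩ := (Finset.mem_filter.mp hq).2
      have hcom : Commute (q.1 : G) (q.2 : G) := hC q.2 _ h1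
      have h4 : (q.1 * q.2) ^ N = q.2 := by
        apply Subtype.ext
        show ((q.1 : G) * q.2) ^ N = q.2
        rw [hcom.mul_pow, hN1 _ (hpow _ h1), hN2 _ (hreg _ h2), one_mul]
      show (q.1 * q.2 * ((q.1 * q.2) ^ N)⁻¹, (q.1 * q.2) ^ N) = q
      rw [h4, mul_inv_cancel_right]
    · intro y hy
      show φ y / φ 1 = φ (y * (y ^ N)⁻¹ * y ^ N) / φ 1
      rw [inv_mul_cancel_right]
  have hS : ∀ w, (∑ u, if Q w u then φ u / φ 1 else 0) ∈ O := by
    intro w
    by_cases hw : (w : G) ∈ D
    · rw [← Finset.sum_filter, sum_pred (fun u => Q w u) _ hφ]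
      · exact sum_mem' _ _ fun L _ => hφ.omega_mem O _
      · intro u u' huu
        obtain ⟨c, hc⟩ := isConj_iff.mp huu
        have hcG : (c : G) * u * (c : G)⁻¹ = u' := congrArg Subtype.val hc
        have hcw : (w : G) * c = c * w := (hC c _ hw).eq
        have k1 : IsConj (u : G) u' := isConj_iff.mpr ⟨c, hcG⟩
        have k2 : IsConj ((w : G) * u) (w * u') := by
          refine isConj_iff.mpr ⟨c, ?_⟩
          rw [← hcG]
          calc (c : G) * (w * u) * (c : G)⁻¹ = (c * w) * u * (c : G)⁻¹ := by group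
            _ = (w * c) * u * (c : G)⁻¹ := by rw [hcw]
            _ = w * (c * u * (c : G)⁻¹) := by group
        exact ⟨fun h => ⟨h.1, h.2.1.trans k1, h.2.2.trans k2⟩,
          fun h => ⟨h.1, h.2.1.trans k1.symm, h.2.2.trans k2.symm⟩⟩
    · rw [Finset.sum_eq_zero]
      · exact O.zero_mem
      · intro u _
        rw [if_neg (fun h => hw h.1)]
  have hI : ∀ w, (∑ u, if Q w u then φ (w * u) / φ 1 else 0) ∈ O ∧
      red O (∑ u, if Q w u then φ (w * u) / φ 1 else 0)
        = red O (∑ u, if Q w u then φ u / φ 1 else 0) := by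
    intro w
    by_cases hw : (w : G) ∈ D
    · obtain ⟨k, hk⟩ := hpow _ hw
      have hk' : orderOf w = p ^ k := by rw [← hk]; exact (Subgroup.orderOf_coe w).symm
      obtain ⟨c, hcO, hc1, hc2⟩ := nu_exists hpO hφ w
        (fun a => Subtype.ext (hC a _ hw).eq) hk'
      have e2 : (∑ u, if Q w u then φ (w * u) / φ 1 else 0)
          = c * ∑ u, if Q w u then φ u / φ 1 else 0 := by
        rw [Finset.mul_sum]
        refine Finset.sum_congr rfl fun u _ => ?_
        by_cases h : Q w u
        · rw [if_pos h, if_pos h, hc2, mul_div_assoc]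
        · rw [if_neg h, if_neg h, mul_zero]
      rw [e2]
      exact ⟨O.mul_mem _ _ hcO (hS w), by rw [red_mul hcO (hS w), hc1, one_mul]⟩
    · have e3 : ∀ u, ¬ Q w u := fun u h => hw h.1
      simp only [e3, if_false, Finset.sum_const_zero]
      exact ⟨O.zero_mem, trivial⟩
  rw [e1, Finset.sum_filter, Fintype.sum_prod_type,
    red_sum _ _ (fun w _ => (hI w).1), Finset.sum_congr rfl (fun w _ => (hI w).2),
    ← red_sum _ _ (fun w _ => hS w), Finset.sum_comm]
  -- the fibres
  have hcount : ∀ u : Subgroup.centralizer (D : Set G),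
      (∑ w, if Q w u then φ u / φ 1 else 0)
        = (Nat.card (Fib D z x x) : ℂ) * (if IsConj x (u : G) then φ u / φ 1 else 0) := by
    intro u
    by_cases hu : IsConj x (u : G)
    · rw [if_pos hu, ← Finset.sum_filter, Finset.sum_const, nsmul_eq_mul]
      congr 2
      obtain ⟨n, hn, hun⟩ := conj_norm hDX hDp hDi (hC u) hu
      rw [← fib_conj hn hun]
      rw [← Fintype.card_subtype, ← Nat.card_eq_fintype_card]
      refine Nat.card_congr ⟨fun w => ⟨((w.1 : Subgroup.centralizer (D : Set G)) : G),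
        w.2.1, fun d hd => (hC w.1 d hd).symm, w.2.2.2⟩,
        fun w => ⟨⟨w.1, Subgroup.mem_centralizer_iff.mpr fun d hd => (w.2.2.1 d hd).symm⟩,
          w.2.1, hu, w.2.2.2⟩, fun w => rfl, fun w => rfl⟩
    · rw [if_neg hu, mul_zero]
      apply Finset.sum_eq_zero
      intro w _
      rw [if_neg (fun h => hu h.2.1)]
  rw [Finset.sum_congr rfl (fun u _ => hcount u), ← Finset.mul_sum, ← Finset.sum_filter]
  have hT : (∑ y ∈ Finset.univ.filter
      (fun y : Subgroup.centralizer (D : Set G) => IsConj x (y : G)), φ y / φ 1) ∈ O := by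
    rw [sum_pred (fun y : Subgroup.centralizer (D : Set G) => IsConj x (y : G)) _ hφ]
    · exact sum_mem' _ _ fun L _ => hφ.omega_mem O _
    · intro u u' huu
      obtain ⟨c, hc⟩ := isConj_iff.mp huu
      have k1 : IsConj (u : G) u' := isConj_iff.mpr ⟨c, congrArg Subtype.val hc⟩
      exact ⟨fun h => h.trans k1, fun h => h.trans k1.symm⟩
  rw [red_mul (natCast_mem' _) hT, red_natCast]

theorem t_MMZ : S_SECT → S_BRD → S_MMZ := by
  intro h1 h2 G _ _ p hp O hpO B hB D hD z hz hzD
  obtain ⟨x, ⟨P, hP⟩, hom, hbc⟩ := hD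
  have hle : D ≤ Subgroup.centralizer ({x} : Set G) := by
    rw [hP]
    exact Subgroup.map_subtype_le _
  have hDX : ∀ d ∈ D, Commute d x := fun d hd => mem_cent_singleton.mp (hle hd)
  have hDp : IsPGroup p D := by
    rw [hP]
    exact P.2.map _
  have hDi : ¬ p ∣ D.relIndex (Subgroup.centralizer ({x} : Set G)) := by
    have e : D.subgroupOf (Subgroup.centralizer ({x} : Set G))
        = (P : Subgroup (Subgroup.centralizer ({x} : Set G))) := by
      rw [hP]
      exact Subgroup.comap_map_eq_self_of_injective (Subgroup.subtype_injective _) _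
    unfold Subgroup.relIndex
    rw [e]
    exact P.not_dvd_index
  -- x is p-regular
  have hx : ¬ p ∣ orderOf x := by
    obtain ⟨a, b, k, hab, hcom, ha, hb, -, -⟩ := p_parts p x⁻¹
    by_cases ha1 : a = 1
    · rw [ha1, one_mul] at hab
      rw [← orderOf_inv, hab]
      exact hb
    · exfalso
      apply hbc
      have h3 := h1 G p O hpO B hB dl (by
        intro g y
        unfold dl
        have e : y * g * y⁻¹ = 1 ↔ g = 1 := conj_eq_one_iff
        simp only [e]) (by
        intro g
        unfold dl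
        split_ifs
        · exact isIntegral_one
        · exact isIntegral_zero) a ⟨k, ha⟩ (by
        intro u _ hu
        unfold dl
        rw [if_neg]
        intro h
        apply ha1
        have h4 : a = u⁻¹ := eq_inv_of_mul_eq_one_left h
        have h5 : orderOf a = orderOf u := by rw [h4, orderOf_inv]
        rw [← h5, ha] at hu
        have h6 : k = 0 := by
          by_contra h0
          exact hu (dvd_pow_self p h0)
        rw [h6, pow_zero, orderOf_eq_one_iff] at ha
        exact ha) b hcom hb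
      have h7 : ∑ t : G, blockCoeff B t * dl (a * b * t) = blockCoeff B x := by
        rw [Finset.sum_eq_single x]
        · rw [← hab]
          unfold dl
          rw [inv_mul_cancel, if_pos rfl, mul_one]
        · intro t _ ht
          unfold dl
          rw [← hab, if_neg, mul_zero]
          intro h8
          exact ht (inv_mul_eq_one.mp h8).symm
        · intro h
          exact absurd (Finset.mem_univ x) h
      rw [h7] at h3
      rw [h3]
      exact (nu_iff (O := O)).mpr ⟨O.zero_mem, red_zero⟩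
  refine ⟨x, hDX z hz, hx, ?_⟩
  intro χ hχ
  obtain ⟨φ, hφ, hφ2⟩ := h2 G p O hpO B hB D hDp x
    (Subgroup.mem_centralizer_iff.mpr fun d hd => (hDX d hd).eq) hbc
  have hχi : IsIrr χ := by
    obtain ⟨χ₀, _, hB2⟩ := hB
    rw [hB2] at hχ
    exact hχ.1
  have e1 := F_eq hχi (hφ2 χ hχ (z * x))
  have e2 := F_eq hχi (hφ2 χ hχ x)
  rw [main_cong hpO hDX hDp hDi hx hz hzD hφ, ← e2] at e1
  rw [← red_eq_zero_iff (hχi.omega_mem O _), e1]
  have h3 : red O (omega χ x) ≠ 0 := fun h =>
    hom χ hχ ((red_eq_zero_iff (hχi.omega_mem O _)).mp h)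
  have h4 : (Nat.card (Fib D z x x) : RF O) ≠ 0 := by
    rw [← red_natCast]
    intro h
    exact fib_card hDX hDp hDi hx hz hzD ((red_nat_eq_zero_iff hpO _).mp h)
  exact mul_ne_zero h4 h3

end Pool.Agent.Q95.DC
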