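import Pool.Agent.Q95.DC.SmtA

/-!
Project DC (helper17), job SMT: Brauer's second main theorem.
-/

set_option autoImplicit false

open scoped BigOperators Classical
open Representation Pool.Agent.H254R3.IN

noncomputable section

namespace Pool.Agent.Q95.DC

def T_ALG : Prop := ∀ (p : ℕ) [Fact p.Prime] (O : ValuationSubring ℂ), (p : ℂ) ∈ O.nonunits →
  ∀ α : ℂ, IsAlgebraic ℚ α → (∀ n : ℕ, ∃ c ∈ O, α = (p : ℂ) ^ n * c) → α = 0

def T_POW : Prop := ∀ (E Λ : Type) [Ring E] [Fintype Λ] (T : Λ → E) (M : ℕ),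
  (∑ l, T l) ^ M = ∑ w : Fin M → Λ, (List.ofFn fun i => T (w i)).prod

def T_WORD : Prop := ∀ (G Λ : Type) [Group G] [Fintype Λ] (O : ValuationSubring ℂ) (π : Λ → G)
  (a : Λ → ℂ) (h : G → ℂ) (g : G) (γ : Equiv.Perm Λ) (M q : ℕ), 0 < M → (∀ l, a l ∈ O) →
  (∀ x, h x ∈ O) → (∀ x y : G, h (y * x * y⁻¹) = h x) → (∀ l, π (γ l) = g * π l * g⁻¹) →
  (∀ l, a (γ l) = a l) →
  (∀ W : ℕ → Λ, (∀ j, W (j + M) = γ (W j)) → (∀ j, a (W j) ≠ 0) →
    h (g * ((List.range M).map fun i => π (W i)).prod) ≠ 0 → ∀ m, 0 < m → (∀ j, W (j + m) = W j) →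
    q ∣ m) →
  ∃ c ∈ O, ∑ w : Fin M → Λ, (∏ i, a (w i)) * h (g * (List.ofFn fun i => π (w i)).prod) = q * c

def T_UNIT : Prop := ∀ (A : Type) [Group A] [Fintype A] (O : ValuationSubring ℂ)
  (β : Set (A → ℂ)), IsBlock O β → ∀ κ : A → ℂ, IsCl κ → (∀ t, κ t ∈ O) → ∀ φ ∈ β,
  Om κ φ ∉ O.nonunits → ∃ f : A → ℂ, IsCl f ∧ (∀ t, f t ∈ O) ∧ conv κ f = blockCoeff β

def T_SMT : Prop := ∀ (A G : Type) [Group A] [Fintype A] [Group G] [Fintype G] (j : A →* G)
  (p : ℕ) [Fact p.Prime] (O : ValuationSubring ℂ), Function.Injective j →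
  (p : ℂ) ∈ O.nonunits → ∀ z : A, (∃ k, orderOf z = p ^ k) →
  (∀ g : G, Commute (j z) g ↔ g ∈ j.range) → ∀ β : Set (A → ℂ), IsBlock O β → ∀ φ ∈ β,
  ∀ χ : G → ℂ, IsIrr χ → ∀ x : G,
  omega χ x - ∑ᶠ v : {v : A // IsConj x (j v)}, φ v / φ 1 ∉ O.nonunits → ∀ s : A,
  ¬ p ∣ orderOf s → ∑ t : A, blockCoeff β t * χ (j (z * s * t)) = 0


lemma period_mul {Λ : Type} {W : ℕ → Λ} {m : ℕ} (h : ∀ j, W (j + m) = W j) (q j : ℕ) :
    W (j + q * m) = W j := by
  induction q with
  | zero => simp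
  | succ q ih => rw [Nat.succ_mul, ← Nat.add_assoc, h, ih]

lemma iter_gamma {Λ : Type} {W : ℕ → Λ} {M : ℕ} (γ : Equiv.Perm Λ)
    (h : ∀ j, W (j + M) = γ (W j)) (q j : ℕ) : W (j + q * M) = (γ ^ q) (W j) := by
  induction q with
  | zero => simp
  | succ q ih =>
    rw [Nat.succ_mul, ← Nat.add_assoc, h, ih, pow_succ']
    rfl

lemma comm_lemma {A G : Type} [Group A] [Fintype A] [Group G] (j : A →* G) {p k : ℕ}
    (hp : p.Prime) (z s : A) (hzc : ∀ a, Commute z a) (hz : orderOf z = p ^ k)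
    (hs : ¬ p ∣ orderOf s) (m : ℕ) (hm : ¬ p ∣ m) (v : G) (hv : Commute (j (z * s) ^ m) v) :
    Commute (j z) v := by
  have h1 : Commute ((j (z * s) ^ m) ^ orderOf s) v := hv.pow_left _
  have h2 : (j (z * s) ^ m) ^ orderOf s = j (z ^ (m * orderOf s)) := by
    rw [← pow_mul, ← map_pow, (hzc s).mul_pow]
    congr 1
    rw [mul_comm m, pow_mul s, pow_orderOf_eq_one, one_pow, mul_one]
  rw [h2] at h1
  have h3 : (m * orderOf s).Coprime (orderOf z) := by
    rw [hz]
    apply Nat.Coprime.pow_right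
    rw [Nat.coprime_comm, hp.coprime_iff_not_dvd, hp.dvd_mul]
    tauto
  obtain ⟨n, hn⟩ := exists_pow_eq_self_of_coprime h3
  have h4 := h1.pow_left n
  rw [← map_pow, hn] at h4
  exact h4

theorem smt (hALG : T_ALG) (hPOW : T_POW) (hWORD : T_WORD) (hUNIT : T_UNIT) : T_SMT := by
  intro A G _ _ _ _ j p _ O hj hp z hz hcent β hβ φ hφ χ hχ x hx s hs
  have hpp : p.Prime := Fact.out
  obtain ⟨k, hk⟩ := hz
  have hzc : ∀ a : A, Commute z a := by
    intro a
    have h1 : Commute (j z) (j a) := (hcent (j a)).mpr ⟨a, rfl⟩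
    apply hj
    rw [map_mul, map_mul]
    exact h1
  have hφi := hβ.irr φ hφ
  -- the central element
  obtain ⟨κ₀, hκ₀⟩ : ∃ κ₀ : A → ℂ, κ₀ = fun v => if IsConj x (j v) then 1 else 0 := ⟨_, rfl⟩
  have hκ₀c : IsCl κ₀ := by
    intro g y
    rw [hκ₀]
    have : IsConj x (j (y * g * y⁻¹)) ↔ IsConj x (j g) := by
      have h2 : IsConj (j g) (j (y * g * y⁻¹)) := isConj_iff.mpr ⟨j y, by
        rw [map_mul, map_mul, map_inv]⟩
      exact ⟨fun h => h.trans h2.symm, fun h => h.trans h2⟩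
    simp only [this]
  have hκ₀m : ∀ t, κ₀ t ∈ O := by
    intro t
    rw [hκ₀]
    simp only
    split_ifs
    · exact O.one_mem
    · exact O.zero_mem
  obtain ⟨c, hc⟩ : ∃ c, c = omega χ x := ⟨_, rfl⟩
  have hcO : c ∈ O := by rw [hc]; exact hχ.omega_mem O x
  obtain ⟨κ, hκ⟩ : ∃ κ : A → ℂ, κ = fun t => c * dl t - κ₀ t := ⟨_, rfl⟩
  have hκc : IsCl κ := by
    intro g y
    rw [hκ]
    change c * dl (y * g * y⁻¹) - κ₀ (y * g * y⁻¹) = c * dl g - κ₀ g
    rw [hκ₀c g y, dl_cl g y]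
  have hκm : ∀ t, κ t ∈ O := by
    intro t
    rw [hκ]
    exact sub_mem' (O.mul_mem _ _ hcO (dl_mem O t)) (hκ₀m t)
  have hOm : Om κ φ = omega χ x - ∑ᶠ v : {v : A // IsConj x (j v)}, φ v / φ 1 := by
    rw [hκ, Om_sub, Om_smul, Om_dl hφi, mul_one, hc]
    congr 1
    rw [finsum_eq_sum_of_fintype]
    unfold Om
    rw [Finset.sum_div]
    have e1 : ∀ g : A, κ₀ g * φ g / φ 1 = if IsConj x (j g) then φ g / φ 1 else 0 := by
      intro g
      rw [hκ₀]
      simp only
      split_ifs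
      · rw [one_mul]
      · rw [zero_mul, zero_div]
    rw [Finset.sum_congr rfl (fun g _ => e1 g), ← Finset.sum_filter]
    exact Finset.sum_subtype _ (fun g => by simp) _
  obtain ⟨f, hf1, hf2, hf3⟩ := hUNIT A O β hβ κ hκc hκm φ hφ (by rw [hOm]; exact hx)
  obtain ⟨e, he⟩ : ∃ e, e = blockCoeff β := ⟨_, rfl⟩
  have hee : conv e e = e := by
    have hec : IsCl e := by rw [he]; exact blockCoeff_cl hβ.irr
    apply eq_of_Om (hec.conv hec) hec
    intro ψ hψ
    rw [Om_conv hψ hec hec, he, Om_blockCoeff hβ.irr hψ]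
    split_ifs <;> simp
  rw [← he] at hf3
  have hχ' := hχ
  obtain ⟨V, _, _, _, ρ, hr, rfl⟩ := hχ
  -- operators
  obtain ⟨ρj, hρj⟩ : ∃ ρj : Representation ℂ A V, ρj = ρ.comp j := ⟨_, rfl⟩
  have hρja : ∀ t, ρj t = ρ (j t) := fun t => by rw [hρj]; rfl
  obtain ⟨E, hE⟩ : ∃ E : (A → ℂ) → Module.End ℂ V, E = fun u => ∑ t, u t • ρj t := ⟨_, rfl⟩
  have hEc : ∀ u w, E (conv u w) = E u * E w := by
    intro u w
    rw [hE]
    exact op_conv ρj u w
  obtain ⟨S, hS⟩ : ∃ S : Finset G, S = Finset.univ.filter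
    (fun v => IsConj x v ∧ v ∉ j.range) := ⟨_, rfl⟩
  have hΔ : ∑ v ∈ S, ρ v = E κ := by
    have h1 := class_sum_scalar ρ hr x
    rw [← hc] at h1
    have h2 : ∑ y ∈ Finset.univ.filter (fun y : G => IsConj x y), ρ y
        = ∑ v ∈ S, ρ v + E κ₀ := by
      rw [← Finset.sum_filter_add_sum_filter_not (Finset.univ.filter (fun y : G => IsConj x y))
        (fun v => v ∉ j.range)]
      congr 1
      · rw [hS, Finset.filter_filter]
      · rw [hE, hκ₀]
        simp only [ite_smul, one_smul, zero_smul]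
        rw [← Finset.sum_filter, Finset.filter_filter]
        symm
        refine Finset.sum_bij (fun t _ => j t) ?_ ?_ ?_ ?_
        · intro t ht
          simp only [Finset.mem_filter, Finset.mem_univ, true_and] at ht ⊢
          exact ⟨ht, not_not.mpr ⟨t, rfl⟩⟩
        · intro t _ t' _ h
          exact hj h
        · intro y hy
          simp only [Finset.mem_filter, Finset.mem_univ, true_and, not_not] at hy
          obtain ⟨hy1, t, rfl⟩ := hy
          exact ⟨t, by simpa using hy1, rfl⟩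
        · intro t _
          rw [hρja]
    have h3 : E κ = c • (LinearMap.id : V →ₗ[ℂ] V) - E κ₀ := by
      rw [hE, hκ]
      simp only [sub_smul, Finset.sum_sub_distrib]
      congr 1
      rw [Finset.sum_eq_single (1 : A)]
      · rw [hρja, map_one, map_one]
        unfold dl
        rw [if_pos rfl, mul_one]
        rfl
      · intro b _ hb
        unfold dl
        rw [if_neg hb, mul_zero, zero_smul]
      · intro h
        exact absurd (Finset.mem_univ _) h
    rw [h3, ← h1, h2]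
    abel
  have hΔe : (∑ v ∈ S, ρ v) * E f = E e := by
    rw [hΔ, ← hEc, hf3]
  have hpow : ∀ M : ℕ, 0 < M → ((∑ v ∈ S, ρ v) * E f) ^ M = E e := by
    intro M hM
    rw [hΔe]
    obtain ⟨M', rfl⟩ := Nat.exists_eq_succ_of_ne_zero hM.ne'
    clear hM
    induction M' with
    | zero => rw [Nat.succ_eq_add_one, zero_add, pow_one]
    | succ M' ih => rw [pow_succ, ih, ← hEc, hee]
  -- the value
  obtain ⟨g, hg⟩ : ∃ g, g = j (z * s) := ⟨_, rfl⟩
  obtain ⟨α, hα⟩ : ∃ α, α = ∑ t : A, blockCoeff β t * ρ.character (j (z * s * t)) := ⟨_, rfl⟩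
  have hα1 : α = LinearMap.trace ℂ V (ρ g * E e) := by
    rw [hα, hE, Finset.mul_sum, map_sum]
    refine Finset.sum_congr rfl fun t _ => ?_
    rw [mul_smul_comm, map_smul, smul_eq_mul, hρja, ← map_mul, hg, ← map_mul, he]
    rfl
  rw [← hα]
  -- letters
  let Λ : Type := {v : G // v ∈ S} × A
  let π : Λ → G := fun l => l.1.1 * j l.2
  let a : Λ → ℂ := fun l => f l.2
  have hexp : (∑ v ∈ S, ρ v) * E f = ∑ l : Λ, a l • ρ (π l) := by
    rw [hE, Finset.sum_mul_sum, Fintype.sum_prod_type, ← Finset.sum_coe_sort]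
    refine Finset.sum_congr rfl fun v _ => Finset.sum_congr rfl fun t _ => ?_
    rw [mul_smul_comm, hρja, ← map_mul]
  have hgr : g ∈ j.range := by rw [hg]; exact ⟨_, rfl⟩
  have hSn : ∀ v ∈ S, v ∉ j.range := by
    intro v hv
    rw [hS] at hv
    exact (Finset.mem_filter.mp hv).2.2
  have hSconj : ∀ v ∈ S, ∀ y ∈ j.range, y * v * y⁻¹ ∈ S := by
    intro v hv y hy
    rw [hS] at hv ⊢
    simp only [Finset.mem_filter, Finset.mem_univ, true_and] at hv ⊢
    refine ⟨hv.1.trans (isConj_iff.mpr ⟨y, rfl⟩), fun h => hv.2 ?_⟩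
    have := j.range.mul_mem (j.range.mul_mem (j.range.inv_mem hy) h) hy
    have e1 : y⁻¹ * (y * v * y⁻¹) * y = v := by group
    rwa [e1] at this
  let γ : Equiv.Perm Λ :=
    { toFun := fun l => (⟨g * l.1.1 * g⁻¹, hSconj _ l.1.2 g hgr⟩, z * s * l.2 * (z * s)⁻¹)
      invFun := fun l => (⟨g⁻¹ * l.1.1 * g⁻¹⁻¹, hSconj _ l.1.2 g⁻¹ (j.range.inv_mem hgr)⟩,
        (z * s)⁻¹ * l.2 * (z * s))
      left_inv := by
        intro l
        apply Prod.ext
        · apply Subtype.ext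
          show g⁻¹ * (g * l.1.1 * g⁻¹) * g⁻¹⁻¹ = l.1.1
          group
        · show (z * s)⁻¹ * (z * s * l.2 * (z * s)⁻¹) * (z * s) = l.2
          group
      right_inv := by
        intro l
        apply Prod.ext
        · apply Subtype.ext
          show g * (g⁻¹ * l.1.1 * g⁻¹⁻¹) * g⁻¹ = l.1.1
          group
        · show z * s * ((z * s)⁻¹ * l.2 * (z * s)) * (z * s)⁻¹ = l.2
          group }
  have hγ1 : ∀ l, (γ l).1.1 = g * l.1.1 * g⁻¹ := fun l => rfl
  have hγq : ∀ (q : ℕ) (l : Λ), ((γ ^ q) l).1.1 = g ^ q * l.1.1 * (g ^ q)⁻¹ := by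
    intro q
    induction q with
    | zero => intro l; simp
    | succ q ih =>
      intro l
      rw [pow_succ', Equiv.Perm.mul_apply, hγ1, ih, pow_succ']
      group
  have hdiv : ∀ n : ℕ, ∃ d ∈ O, α = (p : ℂ) ^ n * d := by
    intro n
    have hM : 0 < p ^ n := pow_pos hpp.pos n
    have h1 : α = ∑ w : Fin (p ^ n) → Λ, (∏ i, a (w i)) *
        ρ.character (g * (List.ofFn fun i => π (w i)).prod) := by
      rw [hα1, ← hpow (p ^ n) hM, hexp, hPOW (Module.End ℂ V) Λ (fun l => a l • ρ (π l)) (p ^ n),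
        Finset.mul_sum, map_sum]
      exact Finset.sum_congr rfl fun w _ => trace_word ρ a π g w
    obtain ⟨d, hd, hd2⟩ := hWORD G Λ O π a ρ.character g γ (p ^ n) (p ^ (n + 1)) hM
      (fun l => hf2 _) (fun y => hχ'.val_mem O y) (fun y w => hχ'.conj y w) (by
        intro l
        show g * l.1.1 * g⁻¹ * j (z * s * l.2 * (z * s)⁻¹) = g * (l.1.1 * j l.2) * g⁻¹
        rw [map_mul, map_mul, map_inv, ← hg]
        group) (by
        intro l
        exact hf1 _ _) (by
        intro W hW _ _ m hm hWm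
        by_contra hcon
        obtain ⟨i, m', hm', rfl⟩ := Nat.exists_eq_pow_mul_and_not_dvd hm.ne' p hpp.ne_one
        have hin : i ≤ n := by
          by_contra h
          push Not at h
          exact hcon ((pow_dvd_pow p h).trans (dvd_mul_right _ _))
        have h2 : W (0 + m' * p ^ n) = W 0 := by
          have h3 := period_mul hWm (p ^ (n - i)) 0
          have h4 : p ^ (n - i) * (p ^ i * m') = m' * p ^ n := by
            rw [← mul_assoc, ← pow_add, Nat.sub_add_cancel hin, mul_comm]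
          rwa [h4] at h3
        have h3 := iter_gamma γ hW m' 0
        rw [h2] at h3
        have h4 : (W 0).1.1 = g ^ m' * (W 0).1.1 * (g ^ m')⁻¹ := by
          conv_lhs => rw [h3]
          exact hγq m' (W 0)
        have h5 : Commute (j (z * s) ^ m') (W 0).1.1 := by
          rw [← hg]
          show g ^ m' * (W 0).1.1 = (W 0).1.1 * g ^ m'
          rw [eq_mul_inv_iff_mul_eq] at h4
          exact h4.symm
        have h6 := comm_lemma j hpp z s hzc hk hs m' hm' _ h5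
        have h7 := (hcent _).mp h6
        exact hSn _ (W 0).1.2 h7)
    refine ⟨p * d, O.mul_mem _ _ (nonunits_mem hp) hd, ?_⟩
    rw [h1, hd2]
    push_cast
    ring
  have halg : IsAlgebraic ℚ α := by
    rw [hα]
    refine (IsIntegral.sum _ fun t _ => ?_).isAlgebraic
    exact (isAlg_blockCoeff hβ.irr t).mul (hχ'.isIntegral _).tower_top
  exact hALG p O hp α halg hdiv

end Pool.Agent.Q95.DC
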