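import Pool.Agent.Q17.DC.Stm
import Pool.Agent.Q95.DC.SmtB

/-!
Project DC (helper17), job SMT: Brauer's second main theorem.
-/

set_option autoImplicit false

namespace Pool.Agent.Q95.DC

open Pool.Agent.Q17.DC

theorem t_SMT : S_ALG → S_POW → S_WORD → S_UNIT → S_SMT :=
  fun h1 h2 h3 h4 => smt h1 h2 h3 h4

end Pool.Agent.Q95.DC
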