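import Pool.Agent.H254R3.IN.Compare2

/-!
Project DC (helper17), job MMZ: group theory.
-/

set_option autoImplicit false
set_option linter.unusedSectionVars false

open scoped BigOperators Classical Pointwise
open Pool.Agent.H254R3.IN

noncomputable section

namespace Pool.Agent.Q95.DC

variable {G : Type} [Group G] [Fintype G] {p : ℕ} [Fact p.Prime]

/-- Sylow subgroups of `Y` are conjugate in `Y`. -/
lemma sylow_conj (Y D D' : Subgroup G) (hD : D ≤ Y) (hD' : D' ≤ Y) (h1 : IsPGroup p D)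
    (h1' : IsPGroup p D') (h2 : ¬ p ∣ D.relIndex Y) (h2' : ¬ p ∣ D'.relIndex Y) :
    ∃ y ∈ Y, ∀ d, d ∈ D ↔ y * d * y⁻¹ ∈ D' := by
  have hP : IsPGroup p (D.subgroupOf Y) := h1.comap_subtype
  have hP' : IsPGroup p (D'.subgroupOf Y) := h1'.comap_subtype
  obtain ⟨y, hy⟩ := MulAction.exists_smul_eq Y (hP.toSylow h2) (hP'.toSylow h2')
  have h3 : MulAut.conj y • (D.subgroupOf Y) = D'.subgroupOf Y := by
    have := congrArg (fun Q : Sylow p Y => (Q : Subgroup Y)) hy
    exact this
  refine ⟨y, y.2, fun d => ?_⟩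
  constructor
  · intro hd
    have h4 : (⟨d, hD hd⟩ : Y) ∈ D.subgroupOf Y := Subgroup.mem_subgroupOf.mpr hd
    have h5 : MulAut.conj y • (⟨d, hD hd⟩ : Y) ∈ MulAut.conj y • (D.subgroupOf Y) :=
      Subgroup.smul_mem_pointwise_smul _ _ _ h4
    rw [h3, Subgroup.mem_subgroupOf] at h5
    simpa using h5
  · intro hd
    have hdY : d ∈ Y := by
      have h4 := Y.mul_mem (Y.mul_mem (Y.inv_mem y.2) (hD' hd)) y.2
      have e : (y : G)⁻¹ * (y * d * (y : G)⁻¹) * y = d := by group
      rwa [e] at h4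
    have h5 : MulAut.conj y • (⟨d, hdY⟩ : Y) ∈ MulAut.conj y • (D.subgroupOf Y) := by
      rw [h3, Subgroup.mem_subgroupOf]
      simpa using hd
    rw [Subgroup.smul_mem_pointwise_smul_iff, Subgroup.mem_subgroupOf] at h5
    exact h5

/-- A `p`-element of `Y` which centralises the Sylow subgroup `D` is in `D`. -/
lemma mem_of_comm (Y D : Subgroup G) (hD : D ≤ Y) (h1 : IsPGroup p D)
    (h2 : ¬ p ∣ D.relIndex Y) {w : G} (hw : w ∈ Y) {k : ℕ} (hk : orderOf w = p ^ k)
    (hc : ∀ d ∈ D, Commute w d) : w ∈ D := by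
  have h3 : IsPGroup p (Subgroup.zpowers w) := by
    apply IsPGroup.of_card (n := k)
    rw [Nat.card_zpowers, hk]
  have h4 : Subgroup.zpowers w ≤ Subgroup.normalizer (D : Set G) := by
    rw [Subgroup.zpowers_le, Subgroup.mem_normalizer_iff]
    intro h
    constructor
    · intro hh
      rw [(hc h hh).eq, mul_inv_cancel_right]
      exact hh
    · intro hh
      have h5 := (hc _ hh).eq
      have e : w * h * w⁻¹ = h := by
        have h6 : w * (w * h * w⁻¹) * w⁻¹ = w * h * w⁻¹ := by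
          rw [h5, mul_inv_cancel_right]
        have h7 : w * h * w⁻¹ = h := by
          have h8 := mul_right_cancel h6
          exact mul_left_cancel h8
        exact h7
      rwa [e] at hh
  have h5 : IsPGroup p (Subgroup.zpowers w ⊔ D : Subgroup G) := h3.to_sup_of_normal_right' h1 h4
  have h6 : D ≤ Subgroup.zpowers w ⊔ D := le_sup_right
  have h7 : Subgroup.zpowers w ⊔ D ≤ Y := sup_le (by rwa [Subgroup.zpowers_le]) hD
  have h8 := Subgroup.relIndex_mul_relIndex D _ Y h6 h7
  obtain ⟨n, hn⟩ := h5.index (D.subgroupOf (Subgroup.zpowers w ⊔ D))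
  have hn' : D.relIndex (Subgroup.zpowers w ⊔ D) = p ^ n := hn
  have h9 : n = 0 := by
    by_contra h0
    apply h2
    rw [← h8, hn']
    exact (dvd_pow_self p h0).mul_right _
  rw [h9, pow_zero, Subgroup.relIndex_eq_one] at hn'
  exact hn' (Subgroup.mem_sup_left (Subgroup.mem_zpowers w))

/-- An exponent which gives the `p`-regular part. -/
lemma exists_exp (G : Type) [Group G] [Fintype G] (p : ℕ) [hp : Fact p.Prime] :
    ∃ N : ℕ, (∀ w : G, (∃ k, orderOf w = p ^ k) → w ^ N = 1) ∧
      ∀ u : G, ¬ p ∣ orderOf u → u ^ N = u := by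
  obtain ⟨a, q, hq, hG⟩ := Nat.exists_eq_pow_mul_and_not_dvd
    (n := Nat.card G) Nat.card_pos.ne' p hp.out.ne_one
  have hcop : (p ^ a).Coprime q :=
    Nat.Coprime.pow_left a ((Nat.Prime.coprime_iff_not_dvd hp.out).mpr hq)
  obtain ⟨N, hN1, hN2⟩ := Nat.chineseRemainder hcop 0 1
  refine ⟨N, ?_, ?_⟩
  · rintro w ⟨k, hk⟩
    have h1 : orderOf w ∣ p ^ a * q := by rw [← hG]; exact orderOf_dvd_natCard w
    have h2 : orderOf w ∣ p ^ a := by
      rw [hk] at h1 ⊢
      exact (Nat.Coprime.dvd_of_dvd_mul_right (Nat.Coprime.pow_left k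
        ((Nat.Prime.coprime_iff_not_dvd hp.out).mpr hq)) h1)
    rw [← orderOf_dvd_iff_pow_eq_one]
    exact h2.trans ((Nat.modEq_zero_iff_dvd).mp hN1)
  · intro u hu
    have h1 : orderOf u ∣ p ^ a * q := by rw [← hG]; exact orderOf_dvd_natCard u
    have h2 : orderOf u ∣ q := by
      apply Nat.Coprime.dvd_of_dvd_mul_left _ h1
      rw [Nat.coprime_comm]
      exact Nat.Coprime.pow_left a ((Nat.Prime.coprime_iff_not_dvd hp.out).mpr hu)
    have h3 : N ≡ 1 [MOD orderOf u] := hN2.of_dvd h2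
    have h4 := pow_eq_pow_iff_modEq.mpr h3
    rw [pow_one] at h4
    exact h4

lemma orderOf_conj' (g z : G) : orderOf (g * z * g⁻¹) = orderOf z := by
  have := orderOf_injective (MulAut.conj g).toMonoidHom (MulAut.conj g).injective z
  simpa using this

/-- cardinalities -/
lemma relIndex_centralizer_conj {D : Subgroup G} {x g : G}
    (hD : D ≤ Subgroup.centralizer ({x} : Set G))
    (hD' : D ≤ Subgroup.centralizer ({g * x * g⁻¹} : Set G))
    (h : ¬ p ∣ D.relIndex (Subgroup.centralizer ({x} : Set G))) :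
    ¬ p ∣ D.relIndex (Subgroup.centralizer ({g * x * g⁻¹} : Set G)) := by
  have h1 : Nat.card D * D.relIndex (Subgroup.centralizer ({x} : Set G))
      = Nat.card (Subgroup.centralizer ({x} : Set G)) := by
    have := Subgroup.card_mul_index (D.subgroupOf (Subgroup.centralizer ({x} : Set G)))
    rw [Nat.card_congr (Subgroup.subgroupOfEquivOfLe hD).toEquiv] at this
    exact this
  have h2 : Nat.card D * D.relIndex (Subgroup.centralizer ({g * x * g⁻¹} : Set G))
      = Nat.card (Subgroup.centralizer ({g * x * g⁻¹} : Set G)) := by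
    have := Subgroup.card_mul_index (D.subgroupOf (Subgroup.centralizer ({g * x * g⁻¹} : Set G)))
    rw [Nat.card_congr (Subgroup.subgroupOfEquivOfLe hD').toEquiv] at this
    exact this
  have h3 := card_centralizer_congr (isConj_iff.mpr ⟨g, rfl⟩ : IsConj x (g * x * g⁻¹))
  rw [← h1, ← h2] at h3
  have h4 := Nat.eq_of_mul_eq_mul_left Nat.card_pos h3
  rwa [← h4]

end Pool.Agent.Q95.DC
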