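import Pool.Agent.Q17.DC.Stm
import Pool.Agent.Q95.DC.MmzA

/-!
Project DC (helper17), job MMZ: the counting.
-/

set_option autoImplicit false
set_option linter.unusedSectionVars false

open scoped BigOperators Classical Pointwise
open Pool.Agent.H254R3.IN

noncomputable section

namespace Pool.Agent.Q95.DC

variable {G : Type} [Group G] [Fintype G] {p : ℕ} [hp : Fact p.Prime]

lemma mem_conj_smul (D : Subgroup G) (g d : G) :
    g * d * g⁻¹ ∈ (MulAut.conj g • D : Subgroup G) ↔ d ∈ D := by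
  have := @Subgroup.smul_mem_pointwise_smul_iff (MulAut G) G _ _ _ (MulAut.conj g) D d
  rw [MulAut.smul_def, MulAut.conj_apply] at this
  exact this

/-- Burnside. -/
lemma burn (Y D : Subgroup G) (g : G) (hD : D ≤ Y) (hD' : ∀ d ∈ D, g * d * g⁻¹ ∈ Y)
    (h1 : IsPGroup p D) (h2 : ¬ p ∣ D.relIndex Y)
    (h2' : ¬ p ∣ (MulAut.conj g • D : Subgroup G).relIndex Y) :
    ∃ y ∈ Y, ∀ d, d ∈ D ↔ (y * g) * d * (y * g)⁻¹ ∈ D := by
  have h3 : (MulAut.conj g • D : Subgroup G) ≤ Y := by
    intro e he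
    obtain ⟨d, hd, rfl⟩ := (Subgroup.mem_smul_pointwise_iff_exists _ _ _).mp he
    exact hD' d hd
  have h1' : IsPGroup p (MulAut.conj g • D : Subgroup G) :=
    h1.of_equiv (Subgroup.equivSMul (MulAut.conj g) D)
  obtain ⟨y, hy, h⟩ := sylow_conj Y (MulAut.conj g • D) D h3 hD h1' h1 h2' h2
  refine ⟨y, hy, fun d => ?_⟩
  have h4 := h (g * d * g⁻¹)
  rw [mem_conj_smul] at h4
  rw [h4]
  have e : y * (g * d * g⁻¹) * y⁻¹ = (y * g) * d * (y * g)⁻¹ := by group
  rw [e]

/-- the elements of `D` commuting with `x` -/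
lemma mem_cent_singleton {x d : G} : d ∈ Subgroup.centralizer ({x} : Set G) ↔ Commute d x := by
  rw [Subgroup.mem_centralizer_singleton_iff]
  exact Iff.rfl

lemma smul_centralizer (x g : G) :
    (MulAut.conj g • Subgroup.centralizer ({x} : Set G) : Subgroup G)
      = Subgroup.centralizer ({g * x * g⁻¹} : Set G) := by
  ext e
  have e1 : e = g * (g⁻¹ * e * g) * g⁻¹ := by group
  rw [mem_cent_singleton]
  conv_lhs => rw [e1]
  rw [mem_conj_smul, mem_cent_singleton]
  constructor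
  · intro h
    have h2 : (g⁻¹ * e * g) * x = x * (g⁻¹ * e * g) := h
    show e * (g * x * g⁻¹) = g * x * g⁻¹ * e
    calc e * (g * x * g⁻¹) = g * ((g⁻¹ * e * g) * x) * g⁻¹ := by group
      _ = g * (x * (g⁻¹ * e * g)) * g⁻¹ := by rw [h2]
      _ = g * x * g⁻¹ * e := by group
  · intro h
    have h2 : e * (g * x * g⁻¹) = g * x * g⁻¹ * e := h
    show (g⁻¹ * e * g) * x = x * (g⁻¹ * e * g)
    calc (g⁻¹ * e * g) * x = g⁻¹ * (e * (g * x * g⁻¹)) * g := by group
      _ = g⁻¹ * (g * x * g⁻¹ * e) * g := by rw [h2]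
      _ = x * (g⁻¹ * e * g) := by group

section data

variable {D : Subgroup G} {x z : G} (hDX : ∀ d ∈ D, Commute d x) (hDp : IsPGroup p D)
  (hDi : ¬ p ∣ D.relIndex (Subgroup.centralizer ({x} : Set G))) (hx : ¬ p ∣ orderOf x)
  (hz : z ∈ D) (hzD : ∀ d ∈ D, Commute z d)

include hDX hDp hDi in
lemma conj_norm {u : G} (hu : ∀ d ∈ D, Commute d u) (h : IsConj x u) :
    ∃ n : G, (∀ d, d ∈ D ↔ n * d * n⁻¹ ∈ D) ∧ u = n * x * n⁻¹ := by
  obtain ⟨g, rfl⟩ := isConj_iff.mp h
  have h1 : D ≤ Subgroup.centralizer ({x} : Set G) := fun d hd => mem_cent_singleton.mpr (hDX d hd)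
  have h2 : D ≤ Subgroup.centralizer ({g * x * g⁻¹} : Set G) :=
    fun d hd => mem_cent_singleton.mpr (hu d hd)
  obtain ⟨y, hy, h3⟩ := burn (p := p) (Subgroup.centralizer ({g * x * g⁻¹} : Set G)) D g h2
    (fun d hd => by
      rw [← smul_centralizer, mem_conj_smul]
      exact h1 hd) hDp (relIndex_centralizer_conj h1 h2 hDi)
    (by
      rw [← smul_centralizer, Subgroup.relIndex_pointwise_smul]
      exact hDi)
  refine ⟨y * g, h3, ?_⟩
  have h4 : y * (g * x * g⁻¹) = g * x * g⁻¹ * y := mem_cent_singleton.mp hy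
  have e : y * g * x * (y * g)⁻¹ = y * (g * x * g⁻¹) * y⁻¹ := by group
  rw [e, h4, mul_inv_cancel_right]

include hDX hDp hDi hx hz in
/-- the regular part and the `p`-part of a conjugate of `z x` in the centraliser of `D` -/
lemma split {N : ℕ} (hN1 : ∀ w : G, (∃ k, orderOf w = p ^ k) → w ^ N = 1)
    (hN2 : ∀ u : G, ¬ p ∣ orderOf u → u ^ N = u) {y : G} (hy : ∀ d ∈ D, Commute d y)
    (h : IsConj (z * x) y) :
    IsConj x (y ^ N) ∧ y * (y ^ N)⁻¹ ∈ D := by
  obtain ⟨g, rfl⟩ := isConj_iff.mp h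
  have hzp : ∃ k, orderOf z = p ^ k := by
    obtain ⟨k, hk⟩ := (IsPGroup.iff_orderOf.mp hDp) ⟨z, hz⟩
    exact ⟨k, by rw [← hk]; exact (Subgroup.orderOf_mk z hz).symm⟩
  have hzx : Commute z x := hDX z hz
  have e1 : (g * (z * x) * g⁻¹) ^ N = g * x * g⁻¹ := by
    rw [conj_pow, hzx.mul_pow, hN1 z hzp, hN2 x hx, one_mul]
  have e2 : g * (z * x) * g⁻¹ * (g * x * g⁻¹)⁻¹ = g * z * g⁻¹ := by group
  rw [e1, e2]
  refine ⟨isConj_iff.mpr ⟨g, rfl⟩, ?_⟩
  have h1 : ∀ d ∈ D, Commute d (g * x * g⁻¹) := by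
    intro d hd
    rw [← e1]
    exact (hy d hd).pow_right N
  have h2 : ∀ d ∈ D, Commute d (g * z * g⁻¹) := by
    intro d hd
    rw [← e2]
    exact (hy d hd).mul_right (h1 d hd).inv_right
  have h3 : D ≤ Subgroup.centralizer ({x} : Set G) := fun d hd => mem_cent_singleton.mpr (hDX d hd)
  have h4 : D ≤ Subgroup.centralizer ({g * x * g⁻¹} : Set G) :=
    fun d hd => mem_cent_singleton.mpr (h1 d hd)
  obtain ⟨k, hk⟩ := hzp
  apply mem_of_comm (p := p) (Subgroup.centralizer ({g * x * g⁻¹} : Set G)) D h4 hDp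
    (relIndex_centralizer_conj h3 h4 hDi) (w := g * z * g⁻¹) (k := k)
  · rw [← smul_centralizer, mem_conj_smul]
    exact mem_cent_singleton.mpr hzx
  · rw [orderOf_conj', hk]
  · exact fun d hd => (h2 d hd).symm

/-- the fibre -/
def Fib (D : Subgroup G) (z x u : G) : Type :=
  {w : G // w ∈ D ∧ (∀ d ∈ D, Commute w d) ∧ IsConj (z * x) (w * u)}

lemma fib_conj {n u : G} (hn : ∀ d, d ∈ D ↔ n * d * n⁻¹ ∈ D) (hu : u = n * x * n⁻¹) :
    Nat.card (Fib D z x u) = Nat.card (Fib D z x x) := by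
  symm
  have key : ∀ w : G, (w ∈ D ∧ (∀ d ∈ D, Commute w d) ∧ IsConj (z * x) (w * x)) ↔
      (n * w * n⁻¹ ∈ D ∧ (∀ d ∈ D, Commute (n * w * n⁻¹) d) ∧
        IsConj (z * x) (n * w * n⁻¹ * u)) := by
    intro w
    have e1 : n * w * n⁻¹ * u = n * (w * x) * n⁻¹ := by rw [hu]; group
    have h1 : IsConj (w * x) (n * (w * x) * n⁻¹) := isConj_iff.mpr ⟨n, rfl⟩
    rw [e1]
    refine and_congr (hn w) (and_congr ?_ ⟨fun h => h.trans h1, fun h => h.trans h1.symm⟩)
    constructor
    · intro h d hd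
      have h2 : n⁻¹ * d * n ∈ D := by
        rw [hn]
        have e : n * (n⁻¹ * d * n) * n⁻¹ = d := by group
        rwa [e]
      have h3 : w * (n⁻¹ * d * n) = n⁻¹ * d * n * w := h _ h2
      show n * w * n⁻¹ * d = d * (n * w * n⁻¹)
      calc n * w * n⁻¹ * d = n * (w * (n⁻¹ * d * n)) * n⁻¹ := by group
        _ = n * (n⁻¹ * d * n * w) * n⁻¹ := by rw [h3]
        _ = d * (n * w * n⁻¹) := by group
    · intro h d hd
      have h3 : n * w * n⁻¹ * (n * d * n⁻¹) = n * d * n⁻¹ * (n * w * n⁻¹) := h _ ((hn d).mp hd)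
      show w * d = d * w
      calc w * d = n⁻¹ * (n * w * n⁻¹ * (n * d * n⁻¹)) * n := by group
        _ = n⁻¹ * (n * d * n⁻¹ * (n * w * n⁻¹)) * n := by rw [h3]
        _ = d * w := by group
  refine Nat.card_congr ⟨fun w => ⟨n * w.1 * n⁻¹, (key _).mp w.2⟩,
    fun w => ⟨n⁻¹ * w.1 * n, (key _).mpr (by
      have e : n * (n⁻¹ * w.1 * n) * n⁻¹ = w.1 := by group
      rw [e]
      exact w.2)⟩, fun w => Subtype.ext ?_, fun w => Subtype.ext ?_⟩
  · show n⁻¹ * (n * w.1 * n⁻¹) * n = w.1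
    group
  · show n * (n⁻¹ * w.1 * n) * n⁻¹ = w.1
    group

include hDX hDp hDi hx hz hzD in
/-- Burnside: the number of elements of the fibre is prime to `p` -/
lemma fib_card : ¬ p ∣ Nat.card (Fib D z x x) := by
  obtain ⟨N, hN1, hN2⟩ := exists_exp G p
  have hDX' : D ≤ Subgroup.centralizer ({x} : Set G) :=
    fun d hd => mem_cent_singleton.mpr (hDX d hd)
  have hpow : ∀ w ∈ D, ∃ k, orderOf w = p ^ k := by
    intro w hw
    obtain ⟨k, hk⟩ := (IsPGroup.iff_orderOf.mp hDp) ⟨w, hw⟩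
    exact ⟨k, by rw [← hk]; exact (Subgroup.orderOf_mk w hw).symm⟩
  let K : Subgroup G := Subgroup.centralizer ({x} : Set G) ⊓ Subgroup.normalizer (D : Set G)
  let _ : MulAction K G := MulAction.compHom G ((MulAut.conj : G →* MulAut G).comp K.subtype)
  have hsm : ∀ (n : K) (w : G), n • w = (n : G) * w * (n : G)⁻¹ := fun n w => rfl
  have horb : MulAction.orbit K z = {w : G | w ∈ D ∧ (∀ d ∈ D, Commute w d) ∧
      IsConj (z * x) (w * x)} := by
    ext w
    constructor
    · rintro ⟨n, rfl⟩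
      have hn1 : Commute (n : G) x := mem_cent_singleton.mp n.2.1
      have hn2 : ∀ d, d ∈ D ↔ (n : G) * d * (n : G)⁻¹ ∈ D := fun d =>
        Subgroup.mem_normalizer_iff.mp n.2.2 d
      show n • z ∈ D ∧ (∀ d ∈ D, Commute (n • z) d) ∧ IsConj (z * x) (n • z * x)
      rw [hsm]
      refine ⟨(hn2 z).mp hz, ?_, ?_⟩
      · intro d hd
        have h2 : (n : G)⁻¹ * d * n ∈ D := by
          rw [hn2]
          have e : (n : G) * ((n : G)⁻¹ * d * n) * (n : G)⁻¹ = d := by group
          rwa [e]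
        have h3 : z * ((n : G)⁻¹ * d * n) = (n : G)⁻¹ * d * n * z := hzD _ h2
        show (n : G) * z * (n : G)⁻¹ * d = d * ((n : G) * z * (n : G)⁻¹)
        calc (n : G) * z * (n : G)⁻¹ * d = n * (z * ((n : G)⁻¹ * d * n)) * (n : G)⁻¹ := by group
          _ = n * ((n : G)⁻¹ * d * n * z) * (n : G)⁻¹ := by rw [h3]
          _ = d * ((n : G) * z * (n : G)⁻¹) := by group
      · rw [isConj_iff]
        refine ⟨n, ?_⟩
        have h4 : (n : G)⁻¹ * x = x * (n : G)⁻¹ := hn1.inv_left.eq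
        calc (n : G) * (z * x) * (n : G)⁻¹ = n * z * (x * (n : G)⁻¹) := by group
          _ = n * z * ((n : G)⁻¹ * x) := by rw [h4]
          _ = n * z * (n : G)⁻¹ * x := by group
    · rintro ⟨hw, hwc, hcon⟩
      obtain ⟨g, hg⟩ := isConj_iff.mp hcon
      have hzx : Commute z x := hDX z hz
      have hwx : Commute w x := hDX w hw
      have e1 : g * x * g⁻¹ = x := by
        have e2 := congrArg (fun t => t ^ N) hg
        simp only [conj_pow] at e2
        rw [hzx.mul_pow, hwx.mul_pow, hN1 z (hpow z hz), hN1 w (hpow w hw), hN2 x hx,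
          one_mul] at e2
        exact e2
      have e3 : g * z * g⁻¹ = w := by
        have e4 : g * (z * x) * g⁻¹ = (g * z * g⁻¹) * (g * x * g⁻¹) := by group
        rw [e4, e1] at hg
        exact mul_right_cancel hg
      have hgx : Commute g x := by
        show g * x = x * g
        calc g * x = g * x * g⁻¹ * g := by group
          _ = x * g := by rw [e1]
      -- the group in which both are Sylow subgroups
      have hY1 : D ≤ Subgroup.centralizer ({x} : Set G) ⊓ Subgroup.centralizer ({w} : Set G) :=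
        fun d hd => ⟨hDX' hd, mem_cent_singleton.mpr (hwc d hd).symm⟩
      have hs1 : (MulAut.conj g • Subgroup.centralizer ({x} : Set G) : Subgroup G)
          = Subgroup.centralizer ({x} : Set G) := by rw [smul_centralizer, e1]
      have hY2 : ∀ d ∈ D, g * d * g⁻¹ ∈
          Subgroup.centralizer ({x} : Set G) ⊓ Subgroup.centralizer ({w} : Set G) := by
        intro d hd
        refine ⟨?_, ?_⟩
        · show g * d * g⁻¹ ∈ Subgroup.centralizer ({x} : Set G)
          rw [← hs1, mem_conj_smul]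
          exact hDX' hd
        · show g * d * g⁻¹ ∈ Subgroup.centralizer ({w} : Set G)
          rw [← e3, ← smul_centralizer, mem_conj_smul]
          exact mem_cent_singleton.mpr (hzD d hd).symm
      have hY3 : (MulAut.conj g • D : Subgroup G) ≤
          Subgroup.centralizer ({x} : Set G) ⊓ Subgroup.centralizer ({w} : Set G) := by
        intro e he
        obtain ⟨d, hd, rfl⟩ := (Subgroup.mem_smul_pointwise_iff_exists _ _ _).mp he
        exact hY2 d hd
      have hr1 : ¬ p ∣ D.relIndex (Subgroup.centralizer ({x} : Set G) ⊓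
          Subgroup.centralizer ({w} : Set G)) := by
        intro hd
        apply hDi
        rw [← Subgroup.relIndex_mul_relIndex D _ _ hY1 inf_le_left]
        exact hd.mul_right _
      have hr2 : ¬ p ∣ (MulAut.conj g • D : Subgroup G).relIndex
          (Subgroup.centralizer ({x} : Set G) ⊓ Subgroup.centralizer ({w} : Set G)) := by
        intro hd
        apply hDi
        rw [← Subgroup.relIndex_pointwise_smul (MulAut.conj g) D, hs1,
          ← Subgroup.relIndex_mul_relIndex (MulAut.conj g • D : Subgroup G) _ _ hY3 inf_le_left]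
        exact hd.mul_right _
      obtain ⟨y, hy, h5⟩ := burn (p := p) _ D g hY1 hY2 hDp hr1 hr2
      have hyx : Commute y x := mem_cent_singleton.mp hy.1
      have hyw : Commute y w := mem_cent_singleton.mp hy.2
      have hK : y * g ∈ K := ⟨mem_cent_singleton.mpr (hyx.mul_left hgx),
        Subgroup.mem_normalizer_iff.mpr h5⟩
      refine ⟨⟨y * g, hK⟩, ?_⟩
      show y * g * z * (y * g)⁻¹ = w
      have e5 : y * g * z * (y * g)⁻¹ = y * (g * z * g⁻¹) * y⁻¹ := by group
      rw [e5, e3, hyw.eq, mul_inv_cancel_right]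
  have h1 := MulAction.index_stabilizer K z
  have h2 : Nat.card (Fib D z x x) = (MulAction.orbit K z).ncard := by
    rw [horb]
    rfl
  rw [h2, ← h1]
  intro hd
  apply hDi
  have hDK : D ≤ K := le_inf hDX' Subgroup.le_normalizer
  rw [← Subgroup.relIndex_mul_relIndex D K _ hDK inf_le_left]
  refine (hd.trans ?_).mul_right _
  have h3 : D.subgroupOf K ≤ MulAction.stabilizer K z := by
    intro n hn
    rw [Subgroup.mem_subgroupOf] at hn
    rw [MulAction.mem_stabilizer_iff, hsm, (hzD _ hn).symm.eq, mul_inv_cancel_right]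
  exact Subgroup.index_dvd_of_le h3

end data

end Pool.Agent.Q95.DC
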