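import Pool.Agent.H254R3.IN.Compare2

/-!
Project DC (helper17), job SMT (Brauer's second main theorem): preparations.
-/

set_option autoImplicit false

open scoped BigOperators Classical
open Representation Pool.Agent.H254R3.IN

noncomputable section

namespace Pool.Agent.Q95.DC

variable {G : Type} [Group G] [Fintype G]


omit [Fintype G] in
lemma prod_list {V Λ : Type} [AddCommGroup V] [Module ℂ V] (ρ : Representation ℂ G V)
    (a : Λ → ℂ) (π : Λ → G) (l : List Λ) :
    (l.map fun x => a x • ρ (π x)).prod = (l.map a).prod • ρ (l.map π).prod := by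
  induction l with
  | nil =>
    simp only [List.map_nil, List.prod_nil, map_one, one_smul]
  | cons x l ih =>
    rw [List.map_cons, List.prod_cons, ih, List.map_cons, List.prod_cons, List.map_cons,
      List.prod_cons, map_mul, smul_mul_smul_comm]

omit [Fintype G] in
lemma trace_word {V Λ : Type} [AddCommGroup V] [Module ℂ V] [FiniteDimensional ℂ V]
    (ρ : Representation ℂ G V) (a : Λ → ℂ) (π : Λ → G) (g : G) {M : ℕ} (w : Fin M → Λ) :
    LinearMap.trace ℂ V (ρ g * (List.ofFn fun i => a (w i) • ρ (π (w i))).prod)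
      = (∏ i, a (w i)) * ρ.character (g * (List.ofFn fun i => π (w i)).prod) := by
  have e1 : (List.ofFn fun i => a (w i) • ρ (π (w i)))
      = (List.ofFn w).map fun x => a x • ρ (π x) := by
    rw [List.map_ofFn]
    rfl
  have e2 : (List.ofFn fun i => π (w i)) = (List.ofFn w).map π := by
    rw [List.map_ofFn]
    rfl
  have e3 : (∏ i, a (w i)) = ((List.ofFn w).map a).prod := by
    rw [List.map_ofFn, List.prod_ofFn]
    rfl
  rw [e1, e2, e3, prod_list, mul_smul_comm, ← map_mul, map_smul, smul_eq_mul]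
  rfl

lemma isAlg_blockCoeff {B : Set (G → ℂ)} (hB : ∀ χ ∈ B, IsIrr χ) (x : G) :
    IsIntegral ℚ (blockCoeff B x) := by
  rw [blockCoeff_eq hB]
  have h1 : IsIntegral ℚ ((Nat.card G : ℂ)⁻¹) := by
    have : ((Nat.card G : ℂ)⁻¹) = algebraMap ℚ ℂ ((Nat.card G : ℚ)⁻¹) := by
      simp
    rw [this]
    exact isIntegral_algebraMap
  refine h1.mul (IsIntegral.sum _ fun χ hχ => ?_)
  have hχ1 := mem_Irr.mp (Finset.mem_filter.mp hχ).1
  exact (hχ1.isIntegral 1).tower_top.mul (hχ1.isIntegral x⁻¹).tower_top

end Pool.Agent.Q95.DC
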